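import Pool.Agent.W670.ML.Defs

/-! Project ML (helper670): the uniform upper bound. -/

set_option autoImplicit false

namespace Pool.Agent.W736.ML

open NumberField Pool.Agent.W670.ML

theorem uni (h1 : S_CMP) (h2 : S_UB) (h3 : S_MI) : S_UNI := by
  intro hU d n G hn hG m hm ε hε
  rcases Nat.eq_zero_or_pos d with hd | hd
  · refine ⟨1, one_pos, ?_⟩
    intro K _ _ hK
    have : 0 < Module.finrank ℚ K := Module.finrank_pos
    omega
  obtain ⟨hm1, -, -⟩ := (h3 n G hn hG).2 m hm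
  have hN : 2 ≤ n * d := hn.trans (Nat.le_mul_of_pos_right n hd)
  obtain ⟨c, hc, hb⟩ := h2 hU (n * d) m hN hm1 ε hε
  refine ⟨c, hc, ?_⟩
  intro K _ _ hK X hX
  subst hK
  have hY : (0 : ℝ) < ((discr K).natAbs : ℝ) ^ n * X := by
    have : 0 < (discr K).natAbs := Int.natAbs_pos.mpr (discr_ne_zero K)
    positivity
  have hcmp := h1 K n G hn hG m hm X
  calc (Pool.Agent.W670.ML.N K n G X : ℝ) ≤
      ((∑ H ∈ bigInd (n * Module.finrank ℚ K) m, Pool.Agent.W670.ML.N ℚ
        (n * Module.finrank ℚ K) H (((discr K).natAbs : ℝ) ^ n * X) : ℕ) : ℝ) := by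
        exact_mod_cast hcmp
    _ ≤ _ := hb _ hY

end Pool.Agent.W736.ML
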